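import Pool.Agent.H8.AV3.Stmts3

/-!
# AV3B: DVP, the valuation rings
-/

set_option autoImplicit false

namespace Pool.Agent.H16.AV3B

open Polynomial Matrix Pool.AVR Pool.AV3

theorem mem_IP_of {F : Type} [Field F] {P : F[X]} (p q : F[X]) (hq : ¬ P ∣ q) :
    algebraMap F[X] (RatFunc F) p / algebraMap F[X] (RatFunc F) q ∈ AVS.IP P := by
  have hq0 : q ≠ 0 := fun h => hq (h ▸ dvd_zero P)
  intro h
  exact hq (h.trans (RatFunc.denom_div_dvd p q))

theorem mem_IP_iff {F : Type} [Field F] {P : F[X]} (x : RatFunc F) :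
    x ∈ AVS.IP P ↔ ∃ p q : F[X], ¬ P ∣ q ∧
      x = algebraMap F[X] (RatFunc F) p / algebraMap F[X] (RatFunc F) q := by
  constructor
  · intro h
    exact ⟨x.num, x.denom, h, (RatFunc.num_div_denom x).symm⟩
  · rintro ⟨p, q, hq, rfl⟩
    exact mem_IP_of p q hq

theorem am_ne {F : Type} [Field F] {q : F[X]} (hq : q ≠ 0) :
    algebraMap F[X] (RatFunc F) q ≠ 0 :=
  (map_ne_zero_iff _ (IsFractionRing.injective F[X] (RatFunc F))).2 hq

/-- The valuation ring of an irreducible polynomial. -/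
noncomputable def VP {F : Type} [Field F] (P : F[X]) (hP : Irreducible P) :
    ValuationSubring (RatFunc F) where
  carrier := AVS.IP P
  zero_mem' := (mem_IP_iff _).2 ⟨0, 1, fun h => hP.not_isUnit (isUnit_of_dvd_one h), by simp⟩
  one_mem' := (mem_IP_iff _).2 ⟨1, 1, fun h => hP.not_isUnit (isUnit_of_dvd_one h), by simp⟩
  mul_mem' := by
    intro x y hx hy h
    rcases hP.prime.dvd_or_dvd (h.trans (RatFunc.denom_mul_dvd x y)) with h | h
    · exact hx h
    · exact hy h
  add_mem' := by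
    intro x y hx hy h
    rcases hP.prime.dvd_or_dvd (h.trans (RatFunc.denom_add_dvd x y)) with h | h
    · exact hx h
    · exact hy h
  neg_mem' := by
    intro x hx
    obtain ⟨p, q, hq, rfl⟩ := (mem_IP_iff x).1 hx
    exact (mem_IP_iff _).2 ⟨-p, q, hq, by rw [map_neg, neg_div]⟩
  mem_or_inv_mem' := by
    intro x
    by_cases hd : P ∣ x.denom
    · right
      have hn : ¬ P ∣ x.num := fun h =>
        hP.not_isUnit ((RatFunc.isCoprime_num_denom x).isUnit_of_dvd' h hd)
      refine (mem_IP_iff _).2 ⟨x.denom, x.num, hn, ?_⟩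
      conv_lhs => rw [← RatFunc.num_div_denom x]
      rw [inv_div]
    · left
      exact hd

theorem dv_P {F : Type} [Field F] (P : F[X]) (hP : Irreducible P) :
    Dv (AVS.IP P) (algebraMap F[X] (RatFunc F) P) := by
  have hP0 := am_ne hP.ne_zero
  refine ⟨⟨VP P hP, rfl⟩, hP0, ?_⟩
  intro x hx hx0
  constructor
  · intro h
    have hn : P ∣ x.num := by
      by_contra hn
      apply h
      refine (mem_IP_iff _).2 ⟨x.denom, x.num, hn, ?_⟩
      conv_lhs => rw [← RatFunc.num_div_denom x]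
      rw [inv_div]
    obtain ⟨r, hr⟩ := hn
    refine (mem_IP_iff _).2 ⟨r, x.denom, hx, ?_⟩
    have hxe : x = algebraMap F[X] (RatFunc F) P * algebraMap F[X] (RatFunc F) r /
        algebraMap F[X] (RatFunc F) x.denom := by
      rw [← map_mul, ← hr, RatFunc.num_div_denom]
    conv_lhs => rw [hxe]
    have hd0 := am_ne (RatFunc.denom_ne_zero x)
    field_simp
  · intro h1 h2
    have h3 : x / algebraMap F[X] (RatFunc F) P * x⁻¹ ∈ AVS.IP P :=
      (VP P hP).mul_mem _ _ h1 h2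
    obtain ⟨p, q, hq, he⟩ := (mem_IP_iff _).1 h3
    apply hq
    have hq0 : q ≠ 0 := fun h => hq (h ▸ dvd_zero P)
    have hq1 := am_ne hq0
    refine ⟨p, ?_⟩
    apply IsFractionRing.injective F[X] (RatFunc F)
    rw [map_mul]
    field_simp at he
    linear_combination he

theorem dv_inf (F : Type) [Field F] : Dv (AVS.Iinf F) (RatFunc.X)⁻¹ := by
  have hX : (RatFunc.X : RatFunc F) ≠ 0 := RatFunc.X_ne_zero
  refine ⟨⟨{ OInf F with
    mem_or_inv_mem' := ?_ }, rfl⟩, inv_ne_zero hX, ?_⟩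
  · intro x
    change x.intDegree ≤ 0 ∨ (x⁻¹).intDegree ≤ 0
    rw [RatFunc.intDegree_inv]
    omega
  · intro x hx hx0
    change ¬ (x⁻¹).intDegree ≤ 0 ↔ (x / RatFunc.X⁻¹).intDegree ≤ 0
    rw [div_inv_eq_mul, RatFunc.intDegree_inv, RatFunc.intDegree_mul hx0 hX, RatFunc.intDegree_X]
    omega

theorem dvp_thm : DVPStmt :=
  ⟨fun _ _ P hP => dv_P P hP, fun F _ => dv_inf F, fun _ _ O _ h => ⟨⟨O, rfl⟩, h.pi_ne, h.unif⟩⟩

end Pool.Agent.H16.AV3B
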