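import Pool.Agent.H8.AV3.Stmts3

/-!
# AV3B: SEC, the local conditions
-/

set_option autoImplicit false

namespace Pool.Agent.H16.AV3B

open Polynomial Matrix Pool.AVR Pool.AV3

/-- The height one prime of a monic irreducible polynomial. -/
noncomputable def vP {F : Type} [Field F] (P : F[X]) (hP : Irreducible P) :
    IsDedekindDomain.HeightOneSpectrum F[X] :=
  ⟨Ideal.span {P}, (Ideal.span_singleton_prime hP.ne_zero).mpr hP.prime, by
    simp [hP.ne_zero]⟩

theorem map_FP {R S : Type} [CommRing R] [CommRing S] (φ : R →+* S) (a b x y : R) :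
    (fun i => φ (FP a b x y i)) = FP (φ a) (φ b) (φ x) (φ y) := by
  funext i
  fin_cases i <;> simp [FP, map_ofNat]

theorem map_FO {R S : Type} [CommRing R] [CommRing S] (φ : R →+* S) (a b c : R) :
    (fun i => φ (FO a b c i)) = FO (φ a) (φ b) (φ c) := by
  funext i
  fin_cases i <;> simp [FO]

theorem Cls.of_eqv {K : Type} [Field K] {f : K × K × K} {c c' : Fin 10 → K}
    (h : Cls f c) (g : Matrix (Fin 3) (Fin 3) K) (hg : Eqv g c c') : Cls f c' := by
  obtain ⟨P, g', h'⟩ := h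
  exact ⟨P, g' * g, h'.trans hg⟩

theorem Cls.map_pt (hDSC : DSCStmt) {K L : Type} [Field K] [Field L] (φ : K →+* L)
    (h2 : (2 : K) ≠ 0) (f : K × K × K) (hf : dsc f ≠ 0) (Q : PtT f) :
    Cls (φ f.1, φ f.2.1, φ f.2.2) (fun i => φ (FQ Q i)) := by
  have h2' : (2 : L) ≠ 0 := by
    have h3 := (map_ne_zero φ).2 h2
    rwa [map_ofNat] at h3
  cases Q with
  | zero =>
    refine ⟨(WeierstrassCurve.Affine.Point.zero : PtT (φ f.1, φ f.2.1, φ f.2.2)), 1, ?_⟩
    have h3 : (fun i => φ (FQ (WeierstrassCurve.Affine.Point.zero : PtT f) i)) =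
        FO (φ f.1) (φ f.2.1) (φ f.2.2) := map_FO φ _ _ _
    rw [h3]
    exact Eqv.refl _
  | some x y h =>
    have hd : disc (φ f.1) (φ f.2.1) (φ f.2.2) = φ (dsc f) := by
      simp only [dsc, disc, map_sub, map_add, map_mul, map_pow, map_ofNat]
    have hΔ : (E (φ f.1) (φ f.2.1) (φ f.2.2)).Δ ≠ 0 := by
      rw [(hDSC L h2' _ _ _).2, hd]
      have h16 : (16 : L) = 2 ^ 4 := by norm_num
      rw [h16]
      exact mul_ne_zero (pow_ne_zero _ h2') ((map_ne_zero φ).2 hf)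
    have heq : (E (φ f.1) (φ f.2.1) (φ f.2.2)).toAffine.Equation (φ x) (φ y) := by
      have h1 := h.1
      rw [WeierstrassCurve.Affine.equation_iff] at h1 ⊢
      simp only [E] at h1 ⊢
      have h4 := congrArg φ h1
      simpa using h4
    have hns : (E (φ f.1) (φ f.2.1) (φ f.2.2)).toAffine.Nonsingular (φ x) (φ y) :=
      (WeierstrassCurve.Affine.equation_iff_nonsingular_of_Δ_ne_zero hΔ).mp heq
    refine ⟨(WeierstrassCurve.Affine.Point.some (φ x) (φ y) hns :
      PtT (φ f.1, φ f.2.1, φ f.2.2)), 1, ?_⟩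
    have h3 : (fun i => φ (FQ (WeierstrassCurve.Affine.Point.some x y h : PtT f) i)) =
        FP (φ f.1) (φ f.2.1) (φ x) (φ y) := map_FP φ _ _ _ _
    rw [h3]
    exact Eqv.refl _

theorem sec_thm (hCPP : AVS.CPPStmt) (hCPI : AVS.CPIStmt) (hDSC : DSCStmt) : SECStmt := by
  intro F _ _ h2 f
  refine ⟨?_, ?_, ?_⟩
  · rintro c ⟨hv, hi⟩
    refine ⟨?_, ?_⟩
    · intro P hPm hPi
      exact ⟨_, _, _, _, hCPP F h2 P hPm hPi (vP P hPi) rfl, hv (vP P hPi)⟩
    · exact ⟨_, _, _, _, hCPI F h2, hi⟩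
  · rintro c c' ⟨hv, hi⟩ ⟨g, hg⟩
    refine ⟨fun v => ?_, ?_⟩
    · exact Cls.of_eqv (hv v) _ (hg.map _)
    · exact Cls.of_eqv hi _ (hg.map _)
  · intro Q hf
    have h2K : (2 : RatFunc F) ≠ 0 := by
      have h3 := (map_ne_zero (algebraMap F (RatFunc F))).2 h2
      rwa [map_ofNat] at h3
    have hf' : dsc (AVS.kf f) ≠ 0 := by
      have h3 : dsc (AVS.kf f) = algebraMap F[X] (RatFunc F) (dsc f) := by
        simp only [dsc, disc, AVS.kf, map_sub, map_add, map_mul, map_pow, map_ofNat]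
      rw [h3]
      exact (map_ne_zero_iff _ (IsFractionRing.injective F[X] (RatFunc F))).2 hf
    refine ⟨fun v => ?_, ?_⟩
    · exact Cls.map_pt hDSC _ h2K (AVS.kf f) hf' Q
    · exact Cls.map_pt hDSC _ h2K (AVS.kf f) hf' Q

end Pool.Agent.H16.AV3B
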